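import Pool.Agent.W586.GZ.Stm

/-!
Project GZ, part LOWA: the lower estimate, construction of the sequence.
-/

set_option autoImplicit false
open Filter Topology

namespace Pool.Agent.W935.GZ

open Pool.Agent.W586.GZ

lemma C_pos {P : Par} {t : ℕ → ℕ → ℝ} {C δ : ℝ} (hCB : CB (WX P) t C) (hδ : 0 < δ)
    (ht : ∀ n, δ ≤ |t n n|) : 0 < C := by
  have h1 : NB (WX P) (fun n => if n = 0 then (1 : ℝ) else 0) 1 := by
    have := NB.of_l1 (WX_idl P) (x := fun n => if n = 0 then (1 : ℝ) else 0) {0}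
      (by intro i hi; by_contra h; exact hi (if_neg (by simpa using h)))
    simpa using this
  have h2 := hCB.2 {0} _ 1 h1
  have h3 := h2.coord (WX_idl P) 0
  rw [mv_apply_of_mem _ _ _ _ (by simp)] at h3
  simp only [Finset.sum_singleton, if_true, mul_one] at h3
  exact lt_of_lt_of_le hδ ((ht 0).trans h3)

/-- one block -/
lemma block {P : Par} {t : ℕ → ℕ → ℝ} {V : ℕ → Prop}
    (h : ∀ (N : ℕ) (K : ℝ), 0 ≤ K → ∃ F : Finset ℕ, (∀ n ∈ F, N ≤ n ∧ V n) ∧
      ∃ (x : ℕ → ℝ) (b : ℝ), NB (WX P) (mv t F x) b ∧ ¬ NB (WX P) (cut (↑F) x) (K * b))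
    (N : ℕ) (κ : ℝ) (hκ : 0 < κ) :
    ∃ (F : Finset ℕ) (w : ℕ → ℝ), (∀ n ∈ F, N ≤ n ∧ V n) ∧ (∀ n, w n ≠ 0 → n ∈ F) ∧
      NB (WX P) w 1 ∧ (∃ f ∈ WX P, 1 / 2 < ev f w) ∧ NB (WX P) (mv t F w) κ := by
  obtain ⟨F, hF, x, b, h1, h2⟩ := h N (1 / κ) (by positivity)
  have hb : 0 ≤ b := h1.nonneg (WX_idl P)
  have hsupp : ∀ i, cut (↑F) x i ≠ 0 → i ∈ F := by
    intro i hi
    by_contra h'
    exact hi (Set.indicator_of_notMem (by simpa using h') x)
  have hne : ∃ i, cut (↑F) x i ≠ 0 := by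
    by_contra h'
    push Not at h'
    apply h2
    intro f _
    have : cut (↑F) x = fun _ => 0 := funext h'
    rw [this, ev_zero_right]
    positivity
  obtain ⟨ν, hν, h3, f, hf, h4⟩ := exists_norm (WX_idl P) F hsupp hne
  have h5 : 1 / κ * b < ν := by
    by_contra h'
    exact h2 (h3.mono (not_lt.1 h'))
  refine ⟨F, fun n => ν⁻¹ * cut (↑F) x n, hF, ?_, ?_, ⟨f, hf, ?_⟩, ?_⟩
  · intro n hn
    exact hsupp n (fun h' => hn (by show ν⁻¹ * cut (↑F) x n = 0; rw [h', mul_zero]))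
  · have := h3.smul ν⁻¹
    rwa [abs_of_pos (inv_pos.2 hν), inv_mul_cancel₀ hν.ne'] at this
  · rw [ev_smul_right, abs_of_pos (inv_pos.2 hν)]
    have := mul_lt_mul_of_pos_left h4 (inv_pos.2 hν)
    have h6 : ν⁻¹ * (ν / 2) = 1 / 2 := by field_simp
    linarith
  · have h6 : mv t F (fun n => ν⁻¹ * cut (↑F) x n) = fun n => ν⁻¹ * mv t F x n := by
      funext i
      by_cases hi : i ∈ F
      · rw [mv_apply_of_mem _ _ _ _ hi, mv_apply_of_mem _ _ _ _ hi, Finset.mul_sum]
        refine Finset.sum_congr rfl fun j hj => ?_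
        unfold cut
        rw [Set.indicator_of_mem (by simpa using hj)]
        ring
      · rw [mv_apply_of_notMem _ _ _ _ hi, mv_apply_of_notMem _ _ _ _ hi, mul_zero]
    rw [h6]
    refine (h1.smul ν⁻¹).mono ?_
    rw [abs_of_pos (inv_pos.2 hν)]
    have h7 : b ≤ κ * ν := by
      have := mul_lt_mul_of_pos_left h5 hκ
      have h8 : κ * (1 / κ * b) = b := by field_simp
      linarith
    calc ν⁻¹ * b ≤ ν⁻¹ * (κ * ν) := mul_le_mul_of_nonneg_left h7 (inv_pos.2 hν).le
      _ = κ := by field_simp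

/-- a block is large on the even coordinates -/
lemma even_large {P : Par} {t : ℕ → ℕ → ℝ} {C δ : ℝ} {p : ℕ → ℕ} (hCB : CB (WX P) t C)
    (hδ : 0 < δ) (ht : ∀ n, δ ≤ |t n n|) (hp : StrictMono p)
    (hsp : ∀ (a : ℕ) (s : Finset ℕ), a ∉ s → ∑ b ∈ s, |t (p a) (p b)| ≤ δ / 4)
    {F : Finset ℕ} {w : ℕ → ℝ} (hF : ∀ n ∈ F, Even n ∨ ∃ a, n = p a)
    (hw : ∀ n, w n ≠ 0 → n ∈ F) (hf : ∃ f ∈ WX P, 1 / 2 < ev f w)
    (hs : NB (WX P) (mv t F w) (δ / 8)) :
    ∃ f ∈ WW P, min (1 / 2) (δ / (8 * C)) ≤ ev f (cut {n | Even n} w) := by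
  classical
  have hC := C_pos hCB hδ ht
  obtain ⟨f, (⟨hf1, hf2⟩ | ⟨n, hn, rfl⟩), hf3⟩ := hf
  · refine ⟨f, hf1, (min_le_left _ _).trans ?_⟩
    have : ev f (cut {n | Even n} w) = ev f w := by
      apply ev_congr
      intro i hi
      unfold cut
      rw [Set.indicator_of_mem (show i ∈ {n | Even n} from hf2 i hi)]
    rw [this]
    exact hf3.le
  · rw [ev_single] at hf3
    have hnF : n ∈ F := hw n (by intro h; rw [h, abs_zero] at hf3; linarith)
    set Fo : Finset ℕ := F.filter (fun n => Odd n) with hFo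
    obtain ⟨m, hm, hmax⟩ := Finset.exists_max_image Fo (fun n => |w n|)
      ⟨n, Finset.mem_filter.2 ⟨hnF, hn⟩⟩
    have hmF : m ∈ F := (Finset.mem_filter.1 hm).1
    have hmo : Odd m := (Finset.mem_filter.1 hm).2
    have hμ : 1 / 2 < |w m| := lt_of_lt_of_le hf3 (hmax n (Finset.mem_filter.2 ⟨hnF, hn⟩))
    obtain ⟨a, rfl⟩ : ∃ a, m = p a := by
      rcases hF m hmF with h | h
      · exact absurd h (Nat.not_even_iff_odd.2 hmo)
      · exact h
    -- the row `p a`
    have hrow := hs.coord (WX_idl P) (p a)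
    rw [mv_apply_of_mem _ _ _ _ hmF] at hrow
    have hsplit : ∑ j ∈ F, t (p a) j * w j = t (p a) (p a) * w (p a) +
        (∑ j ∈ Fo.erase (p a), t (p a) j * w j) +
        ∑ j ∈ F, t (p a) j * cut {n | Even n} w j := by
      have e1 : ∑ j ∈ F, t (p a) j * w j = ∑ j ∈ Fo, t (p a) j * w j +
          ∑ j ∈ F.filter (fun n => ¬ Odd n), t (p a) j * w j :=
        (Finset.sum_filter_add_sum_filter_not F (fun n => Odd n) _).symm
      have e2 : ∑ j ∈ F, t (p a) j * cut {n | Even n} w j =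
          ∑ j ∈ F.filter (fun n => ¬ Odd n), t (p a) j * w j := by
        rw [Finset.sum_filter]
        refine Finset.sum_congr rfl fun j _ => ?_
        unfold cut
        by_cases hj : Odd j
        · rw [if_neg (by simpa using hj), Set.indicator_of_notMem
            (by simpa using hj), mul_zero]
        · rw [if_pos hj, Set.indicator_of_mem (by simpa using hj)]
      rw [e1, e2, ← Finset.add_sum_erase Fo _ hm]
    have hsecond : |∑ j ∈ Fo.erase (p a), t (p a) j * w j| ≤ δ / 4 * |w (p a)| := by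
      have hinj : Set.InjOn p (p ⁻¹' ↑(Fo.erase (p a))) := hp.injective.injOn
      have e1 := hsp a ((Fo.erase (p a)).preimage p hinj) (by simp)
      rw [Finset.sum_preimage p (Fo.erase (p a)) hinj (fun j => |t (p a) j|)] at e1
      · calc |∑ j ∈ Fo.erase (p a), t (p a) j * w j|
            ≤ ∑ j ∈ Fo.erase (p a), |t (p a) j * w j| := Finset.abs_sum_le_sum_abs _ _
          _ ≤ ∑ j ∈ Fo.erase (p a), |t (p a) j| * |w (p a)| := by
              refine Finset.sum_le_sum fun j hj => ?_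
              rw [abs_mul]
              exact mul_le_mul_of_nonneg_left (hmax j (Finset.mem_of_mem_erase hj)) (abs_nonneg _)
          _ = (∑ j ∈ Fo.erase (p a), |t (p a) j|) * |w (p a)| := (Finset.sum_mul _ _ _).symm
          _ ≤ δ / 4 * |w (p a)| := mul_le_mul_of_nonneg_right e1 (abs_nonneg _)
      · intro j hj hj'
        exfalso
        have hjF := Finset.mem_filter.1 (Finset.mem_of_mem_erase hj)
        rcases hF j hjF.1 with h | ⟨b, rfl⟩
        · exact absurd h (Nat.not_even_iff_odd.2 hjF.2)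
        · exact hj' ⟨b, rfl⟩
    have hfirst : δ * |w (p a)| ≤ |t (p a) (p a) * w (p a)| := by
      rw [abs_mul]
      exact mul_le_mul_of_nonneg_right (ht (p a)) (abs_nonneg _)
    set T3 := ∑ j ∈ F, t (p a) j * cut {n | Even n} w j with hT3
    have hthird : δ / 4 ≤ |T3| := by
      have e1 : |t (p a) (p a) * w (p a)| ≤ |∑ j ∈ F, t (p a) j * w j| +
          |∑ j ∈ Fo.erase (p a), t (p a) j * w j| + |T3| := by
        have : t (p a) (p a) * w (p a) = ∑ j ∈ F, t (p a) j * w j -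
            ∑ j ∈ Fo.erase (p a), t (p a) j * w j - T3 := by rw [hsplit]; ring
        rw [this]
        refine (abs_sub _ _).trans ?_
        have := abs_sub (∑ j ∈ F, t (p a) j * w j) (∑ j ∈ Fo.erase (p a), t (p a) j * w j)
        linarith
      nlinarith
    have hxe0 : ∃ i, cut {n | Even n} w i ≠ 0 := by
      by_contra h'
      push Not at h'
      rw [hT3, Finset.sum_eq_zero (fun j _ => by rw [h' j, mul_zero]), abs_zero] at hthird
      linarith
    have hxeF : ∀ i, cut {n | Even n} w i ≠ 0 → i ∈ F := by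
      intro i hi
      apply hw
      intro h'
      apply hi
      unfold cut
      by_cases hi' : Even i
      · rw [Set.indicator_of_mem (show i ∈ {n | Even n} from hi'), h']
      · rw [Set.indicator_of_notMem (show i ∉ {n | Even n} from hi')]
    obtain ⟨ν, hν, h3, g, hg, h4⟩ := exists_norm (WW_idl P) F hxeF hxe0
    have h5 : NB (WX P) (cut {n | Even n} w) ν := by
      rw [NB_WX]
      refine ⟨h3.cut (WW_idl P) _, ?_⟩
      intro i hi
      unfold cut
      rw [Set.indicator_of_notMem (show i ∉ {n | Even n} from Nat.not_even_iff_odd.2 hi), abs_zero]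
      exact hν.le
    have h6 := (hCB.2 F _ ν h5).coord (WX_idl P) (p a)
    rw [mv_apply_of_mem _ _ _ _ hmF] at h6
    have h7 : δ / 4 ≤ C * ν := hthird.trans h6
    refine ⟨g, hg, (min_le_right _ _).trans ?_⟩
    have h8 : δ / (8 * C) ≤ ν / 2 := by
      rw [div_le_iff₀ (by positivity)]
      nlinarith
    linarith

theorem main : S_LOWB → S_LOW := by
  intro hLOWB P t C δ p hCB hδ ht hp hodd hsp
  by_contra hcon
  push Not at hcon
  have hC := C_pos hCB hδ ht
  have hstep := fun (N : ℕ) (κ : ℝ) (hκ : 0 < κ) =>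
    block (P := P) (t := t) (V := fun n => Even n ∨ ∃ a, n = p a)
      (fun N K hK => by
        obtain ⟨F, hF, x, b, h1, h2⟩ := hcon N K hK
        exact ⟨F, hF, x, b, h1, h2⟩) N κ hκ
  choose! F w hF hw hw1 hf hmv using hstep
  set κ : ℕ → ℝ := fun k => min (1 / 2 ^ k) (δ / 8) with hκ
  have hκpos : ∀ k, 0 < κ k := fun k => lt_min (by positivity) (by positivity)
  let c : ℕ → ℕ := fun k => Nat.rec 0 (fun k N => max N ((F N (κ k)).sup id) + 1) k
  have hc1 : ∀ k, c (k + 1) = max (c k) ((F (c k) (κ k)).sup id) + 1 := fun k => rfl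
  have hcm : StrictMono c := by
    apply strictMono_nat_of_lt_succ
    intro k
    rw [hc1]
    have := le_max_left (c k) ((F (c k) (κ k)).sup id)
    omega
  refine hLOWB P t C δ (min (1 / 2) (δ / (8 * C))) (fun k => F (c k) (κ k))
    (fun k => w (c k) (κ k)) c hCB hδ (lt_min (by norm_num) (by positivity)) ht hcm ?_ ?_ ?_ ?_ ?_
  · intro k n hn
    refine ⟨(hF (c k) (κ k) (hκpos k) n hn).1, ?_⟩
    rw [hc1]
    have h1 : n ≤ (F (c k) (κ k)).sup id := Finset.le_sup (f := id) hn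
    have h2 := le_max_right (c k) ((F (c k) (κ k)).sup id)
    omega
  · intro k n hn
    exact hw (c k) (κ k) (hκpos k) n hn
  · intro k
    exact hw1 (c k) (κ k) (hκpos k)
  · intro k
    exact (hmv (c k) (κ k) (hκpos k)).mono (min_le_left _ _)
  · intro k
    exact even_large hCB hδ ht hp hsp (fun n hn => (hF (c k) (κ k) (hκpos k) n hn).2)
      (hw (c k) (κ k) (hκpos k)) (hf (c k) (κ k) (hκpos k))
      ((hmv (c k) (κ k) (hκpos k)).mono (min_le_right _ _))

end Pool.Agent.W935.GZ
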